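import Mathlib

set_option autoImplicit false

namespace Pool.Agent.Helper84_TMFib

/-- The Prouhet-Thue-Morse sign `t_n = (-1)^(s_2(n))`, with `s_2(n)` the number of ones in the
binary expansion of `n`. -/
def t (n : ℕ) : ℤ := (-1) ^ (Nat.digits 2 n).sum

/-- `h_0 = 0`, `h_1 = 1`, `h_n = t_n h_{n-1} + h_{n-2}` for `n ≥ 2`. -/
def h : ℕ → ℤ
  | 0 => 0
  | 1 => 1
  | n + 2 => t (n + 2) * h (n + 1) + h n

/-- `ρ_n = |h_n| / |h_{n-1}|`. -/
noncomputable def rho (n : ℕ) : ℝ := |(h n : ℝ)| / |(h (n - 1) : ℝ)|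

end Pool.Agent.Helper84_TMFib
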