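import Mathlib
import Pool.Agent.Helper84_TMFib.Defs

set_option autoImplicit false

namespace Pool.Agent.Helper84_TMFib

theorem t_zero : t 0 = 1 := by simp [t]

theorem t_two_mul (n : ℕ) : t (2 * n) = t n := by
  rcases Nat.eq_zero_or_pos n with rfl | hn
  · simp
  · unfold t
    rw [Nat.digits_def' (by norm_num) (by omega)]
    simp

theorem t_two_mul_add_one (n : ℕ) : t (2 * n + 1) = - t n := by
  unfold t
  rw [Nat.digits_def' (by norm_num) (by omega)]
  have h1 : (2 * n + 1) % 2 = 1 := by omega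
  have h2 : (2 * n + 1) / 2 = n := by omega
  rw [h1, h2, List.sum_cons, pow_add]
  ring

theorem t_sq (n : ℕ) : t n = 1 ∨ t n = -1 := by
  unfold t
  exact neg_one_pow_eq_or ℤ _

theorem t_add (K q r : ℕ) (hr : r < 2 ^ K) : t (2 ^ K * q + r) = t q * t r := by
  induction K generalizing r with
  | zero =>
    have : r = 0 := by simpa using hr
    subst this
    simp [t_zero]
  | succ K ih =>
    rcases Nat.even_or_odd' r with ⟨s, rfl | rfl⟩
    · rw [show 2 ^ (K + 1) * q + 2 * s = 2 * (2 ^ K * q + s) by ring, t_two_mul, t_two_mul]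
      exact ih s (by rw [pow_succ] at hr; omega)
    · rw [show 2 ^ (K + 1) * q + (2 * s + 1) = 2 * (2 ^ K * q + s) + 1 by ring,
        t_two_mul_add_one, t_two_mul_add_one, ih s (by rw [pow_succ] at hr; omega)]
      ring

theorem t_pow_mul (K q : ℕ) : t (2 ^ K * q) = t q := by
  have := t_add K q 0 (by positivity)
  simpa [t_zero] using this

theorem t_pow_sub_one (K : ℕ) : t (2 ^ K - 1) = (-1) ^ K := by
  induction K with
  | zero => simp [t_zero]
  | succ K ih =>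
    have h1 : 2 ^ (K + 1) - 1 = 2 * (2 ^ K - 1) + 1 := by
      have : 1 ≤ 2 ^ K := Nat.one_le_two_pow
      rw [pow_succ]; omega
    rw [h1, t_two_mul_add_one, ih]
    ring

/-- `t (2^K (q+1) - 1)`. -/
theorem t_pow_mul_sub_one (K q : ℕ) : t (2 ^ K * (q + 1) - 1) = t q * (-1) ^ K := by
  have h1 : 2 ^ K * (q + 1) - 1 = 2 ^ K * q + (2 ^ K - 1) := by
    have : 1 ≤ 2 ^ K := Nat.one_le_two_pow
    rw [mul_add, mul_one]; omega
  have h2 : 2 ^ K - 1 < 2 ^ K := by
    have : 1 ≤ 2 ^ K := Nat.one_le_two_pow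
    omega
  rw [h1, t_add _ _ _ h2, t_pow_sub_one]

/-- `h` over the reals, at index `4 j + s`. -/
theorem h_rec (j : ℕ) :
    h (4 * j + 2) = - t j * h (4 * j + 1) + h (4 * j) ∧
    h (4 * j + 3) = t j * h (4 * j + 2) + h (4 * j + 1) ∧
    h (4 * j + 4) = t (j + 1) * h (4 * j + 3) + h (4 * j + 2) ∧
    h (4 * j + 5) = - t (j + 1) * h (4 * j + 4) + h (4 * j + 3) := by
  have e2 : t (4 * j + 2) = - t j := by
    rw [show 4 * j + 2 = 2 * (2 * j + 1) by ring, t_two_mul, t_two_mul_add_one]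
  have e3 : t (4 * j + 3) = t j := by
    rw [show 4 * j + 3 = 2 * (2 * j + 1) + 1 by ring, t_two_mul_add_one, t_two_mul_add_one,
      neg_neg]
  have e4 : t (4 * j + 4) = t (j + 1) := by
    rw [show 4 * j + 4 = 2 * (2 * (j + 1)) by ring, t_two_mul, t_two_mul]
  have e5 : t (4 * j + 5) = - t (j + 1) := by
    rw [show 4 * j + 5 = 2 * (2 * (j + 1)) + 1 by ring, t_two_mul_add_one, t_two_mul]
  refine ⟨?_, ?_, ?_, ?_⟩
  · rw [← e2]; rfl
  · rw [← e3]; rfl
  · rw [← e4]; rfl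
  · rw [← e5]; rfl

/-- sign invariant -/
def Inv (j : ℕ) : Prop := 0 ≤ - t j * (h (4 * j) * h (4 * j + 1)) ∧ h (4 * j + 1) ≠ 0

theorem abs_add_of_mul_nonneg {x y : ℤ} (hxy : 0 ≤ x * y) : |x + y| = |x| + |y| := by
  rw [abs_add_eq_add_abs_iff]
  rcases le_total 0 x with hx | hx <;> rcases le_total 0 y with hy | hy
  · left; exact ⟨hx, hy⟩
  · have : x * y ≤ 0 := mul_nonpos_of_nonneg_of_nonpos hx hy
    have h0 : x * y = 0 := le_antisymm this hxy
    rcases mul_eq_zero.mp h0 with h1 | h1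
    · right; exact ⟨h1.le, hy⟩
    · left; exact ⟨hx, h1.ge⟩
  · have : x * y ≤ 0 := mul_nonpos_of_nonpos_of_nonneg hx hy
    have h0 : x * y = 0 := le_antisymm this hxy
    rcases mul_eq_zero.mp h0 with h1 | h1
    · left; exact ⟨h1.ge, hy⟩
    · right; exact ⟨hx, h1.le⟩
  · right; exact ⟨hx, hy⟩

theorem step_aux {τ τ' a b c d e f : ℤ} (hτ : τ = 1 ∨ τ = -1) (hτ' : τ' = 1 ∨ τ' = -1)
    (hs : 0 ≤ - τ * (a * b)) (hne : b ≠ 0) (e2 : c = - τ * b + a) (e3 : d = τ * c + b)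
    (e4 : e = τ' * d + c) (e5 : f = - τ' * e + d) :
    |c| = |a| + |b| ∧ |d| = |a| ∧ |e| = (if τ' = τ then 2 * |a| + |b| else |b|) ∧
    |f| = |a| + |b| ∧ 0 ≤ - τ' * (e * f) ∧ f ≠ 0 := by
  subst e2
  subst e3
  subst e4
  subst e5
  rcases hτ with rfl | rfl <;> rcases hτ' with rfl | rfl
  · -- 1, 1
    have hab : 0 ≤ a * (-b) := by linarith
    have h1 := abs_add_of_mul_nonneg hab
    rw [abs_neg] at h1
    have h2 : |2 * a + (-b)| = |2 * a| + |(-b)| := abs_add_of_mul_nonneg (by linarith)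
    rw [abs_neg, abs_mul, abs_two] at h2
    refine ⟨?_, ?_, ?_, ?_, ?_, ?_⟩
    · rw [← h1]; congr 1; ring
    · congr 1; ring
    · rw [if_pos rfl, ← h2]; congr 1; ring
    · rw [← h1, ← abs_neg]; congr 1; ring
    · nlinarith [sq_nonneg a, sq_nonneg b]
    · intro hc
      have : a = b := by linarith
      rw [this] at hab
      have : b ^ 2 ≤ 0 := by nlinarith
      exact hne (pow_eq_zero_iff (by norm_num) |>.mp (le_antisymm this (sq_nonneg b)))
  · -- 1, -1
    have hab : 0 ≤ a * (-b) := by linarith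
    have h1 := abs_add_of_mul_nonneg hab
    rw [abs_neg] at h1
    refine ⟨?_, ?_, ?_, ?_, ?_, ?_⟩
    · rw [← h1]; congr 1; ring
    · congr 1; ring
    · rw [if_neg (by norm_num), ← abs_neg]; congr 1; ring
    · rw [← h1]; congr 1; ring
    · nlinarith [sq_nonneg a, sq_nonneg b]
    · intro hc
      have : a = b := by linarith
      rw [this] at hab
      have : b ^ 2 ≤ 0 := by nlinarith
      exact hne (pow_eq_zero_iff (by norm_num) |>.mp (le_antisymm this (sq_nonneg b)))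
  · -- -1, 1
    have hab : 0 ≤ a * b := by linarith
    have h1 := abs_add_of_mul_nonneg hab
    refine ⟨?_, ?_, ?_, ?_, ?_, ?_⟩
    · rw [← h1]; congr 1; ring
    · rw [← abs_neg]; congr 1; ring
    · rw [if_neg (by norm_num)]; congr 1; ring
    · rw [← h1, ← abs_neg]; congr 1; ring
    · nlinarith [sq_nonneg a, sq_nonneg b]
    · intro hc
      have : a = -b := by linarith
      rw [this] at hab
      have : b ^ 2 ≤ 0 := by nlinarith
      exact hne (pow_eq_zero_iff (by norm_num) |>.mp (le_antisymm this (sq_nonneg b)))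
  · -- -1, -1
    have hab : 0 ≤ a * b := by linarith
    have h1 := abs_add_of_mul_nonneg hab
    have h2 : |2 * a + b| = |2 * a| + |b| := abs_add_of_mul_nonneg (by linarith)
    rw [abs_mul, abs_two] at h2
    refine ⟨?_, ?_, ?_, ?_, ?_, ?_⟩
    · rw [← h1]; congr 1; ring
    · rw [← abs_neg]; congr 1; ring
    · rw [if_pos rfl, ← h2]; congr 1; ring
    · rw [← h1]; congr 1; ring
    · nlinarith [sq_nonneg a, sq_nonneg b]
    · intro hc
      have : a = -b := by linarith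
      rw [this] at hab
      have : b ^ 2 ≤ 0 := by nlinarith
      exact hne (pow_eq_zero_iff (by norm_num) |>.mp (le_antisymm this (sq_nonneg b)))

/-- one step of the dynamics on absolute values -/
theorem step_abs {j : ℕ} (hI : Inv j) :
    |h (4 * j + 2)| = |h (4 * j)| + |h (4 * j + 1)| ∧
    |h (4 * j + 3)| = |h (4 * j)| ∧
    |h (4 * j + 4)| =
      (if t (j + 1) = t j then 2 * |h (4 * j)| + |h (4 * j + 1)| else |h (4 * j + 1)|) ∧
    |h (4 * j + 5)| = |h (4 * j)| + |h (4 * j + 1)| ∧ Inv (j + 1) := by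
  obtain ⟨e2, e3, e4, e5⟩ := h_rec j
  obtain ⟨hs, hne⟩ := hI
  unfold Inv
  rw [show 4 * (j + 1) = 4 * j + 4 by ring, show 4 * j + 4 + 1 = 4 * j + 5 by ring]
  exact step_aux (t_sq j) (t_sq (j + 1)) hs hne e2 e3 e4 e5

theorem inv_zero : Inv 0 := by
  refine ⟨?_, ?_⟩
  · simp [h]
  · simp [h]

theorem inv (j : ℕ) : Inv j := by
  induction j with
  | zero => exact inv_zero
  | succ j ih => exact (step_abs ih).2.2.2.2

theorem B_pos (j : ℕ) : 0 < |h (4 * j + 1)| := abs_pos.mpr (inv j).2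

theorem A_pos (j : ℕ) : 0 < |h (4 * j + 4)| := by
  rw [(step_abs (inv j)).2.2.1]
  have := B_pos j
  have := abs_nonneg (h (4 * j))
  split_ifs <;> linarith

/-- `u_j = |h_{4j}| / |h_{4j+1}|` -/
noncomputable def u (j : ℕ) : ℝ := |(h (4 * j) : ℝ)| / |(h (4 * j + 1) : ℝ)|

theorem u_zero : u 0 = 0 := by simp [u, h]

theorem Br_pos (j : ℕ) : (0 : ℝ) < |(h (4 * j + 1) : ℝ)| := by
  have := B_pos j
  exact_mod_cast this

theorem Ar_pos (j : ℕ) : (0 : ℝ) < |(h (4 * j + 4) : ℝ)| := by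
  have := A_pos j
  exact_mod_cast this

theorem u_nonneg (j : ℕ) : 0 ≤ u j := by unfold u; positivity

theorem u_succ (j : ℕ) :
    u (j + 1) = if t (j + 1) = t j then 2 - 1 / (1 + u j) else 1 / (1 + u j) := by
  obtain ⟨-, -, h4, h5, -⟩ := step_abs (inv j)
  have hb := Br_pos j
  have ha : (0 : ℝ) ≤ |(h (4 * j) : ℝ)| := abs_nonneg _
  have h4' : |(h (4 * j + 4) : ℝ)| = (if t (j + 1) = t j then
    2 * |(h (4 * j) : ℝ)| + |(h (4 * j + 1) : ℝ)| else |(h (4 * j + 1) : ℝ)|) := by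
    exact_mod_cast congrArg (Int.cast : ℤ → ℝ) h4
  have h5' : |(h (4 * j + 5) : ℝ)| = |(h (4 * j) : ℝ)| + |(h (4 * j + 1) : ℝ)| := by
    exact_mod_cast congrArg (Int.cast : ℤ → ℝ) h5
  unfold u
  rw [show 4 * (j + 1) = 4 * j + 4 by ring, show 4 * j + 4 + 1 = 4 * j + 5 by ring, h4', h5']
  set A := |(h (4 * j) : ℝ)|
  set B := |(h (4 * j + 1) : ℝ)|
  have hAB : A + B ≠ 0 := by positivity
  split_ifs
  · field_simp
    ring
  · field_simp
    ring

theorem rho_1 (j : ℕ) : rho (4 * j + 1) = 1 / u j := by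
  unfold rho u
  rw [show 4 * j + 1 - 1 = 4 * j by omega, one_div_div]

theorem rho_2 (j : ℕ) : rho (4 * j + 2) = 1 + u j := by
  unfold rho u
  obtain ⟨h2, -⟩ := step_abs (inv j)
  have hb := Br_pos j
  have h2' : |(h (4 * j + 2) : ℝ)| = |(h (4 * j) : ℝ)| + |(h (4 * j + 1) : ℝ)| := by
    exact_mod_cast congrArg (Int.cast : ℤ → ℝ) h2
  rw [show 4 * j + 2 - 1 = 4 * j + 1 by omega, h2']
  field_simp
  ring

theorem rho_3 (j : ℕ) : rho (4 * j + 3) = 1 - 1 / (1 + u j) := by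
  unfold rho u
  obtain ⟨h2, h3, -⟩ := step_abs (inv j)
  have hb := Br_pos j
  have ha : (0 : ℝ) ≤ |(h (4 * j) : ℝ)| := abs_nonneg _
  have h2' : |(h (4 * j + 2) : ℝ)| = |(h (4 * j) : ℝ)| + |(h (4 * j + 1) : ℝ)| := by
    exact_mod_cast congrArg (Int.cast : ℤ → ℝ) h2
  have h3' : |(h (4 * j + 3) : ℝ)| = |(h (4 * j) : ℝ)| := by
    exact_mod_cast congrArg (Int.cast : ℤ → ℝ) h3
  rw [show 4 * j + 3 - 1 = 4 * j + 2 by omega, h2', h3']
  set A := |(h (4 * j) : ℝ)|
  set B := |(h (4 * j + 1) : ℝ)|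
  have hAB : A + B ≠ 0 := by positivity
  field_simp
  ring

theorem u_pos {j : ℕ} (hj : 1 ≤ j) : 0 < u j := by
  obtain ⟨i, rfl⟩ : ∃ i, j = i + 1 := ⟨j - 1, by omega⟩
  unfold u
  have h1 := Ar_pos i
  have h2 := Br_pos (i + 1)
  rw [show 4 * (i + 1) = 4 * i + 4 by ring] at *
  positivity

theorem rho_4 {j : ℕ} (hj : 1 ≤ j) :
    rho (4 * j + 4) = if t (j + 1) = t j then 2 + 1 / u j else 1 / u j := by
  have hu := u_pos hj
  unfold rho
  obtain ⟨h2, h3, h4, -⟩ := step_abs (inv j)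
  have hb := Br_pos j
  have hA : (0 : ℝ) < |(h (4 * j) : ℝ)| := by
    unfold u at hu
    by_contra hc
    have : |(h (4 * j) : ℝ)| = 0 := le_antisymm (not_lt.mp hc) (abs_nonneg _)
    rw [this] at hu
    simp at hu
  have h3' : |(h (4 * j + 3) : ℝ)| = |(h (4 * j) : ℝ)| := by
    exact_mod_cast congrArg (Int.cast : ℤ → ℝ) h3
  have h4' : |(h (4 * j + 4) : ℝ)| = (if t (j + 1) = t j then
    2 * |(h (4 * j) : ℝ)| + |(h (4 * j + 1) : ℝ)| else |(h (4 * j + 1) : ℝ)|) := by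
    exact_mod_cast congrArg (Int.cast : ℤ → ℝ) h4
  rw [show 4 * j + 4 - 1 = 4 * j + 3 by omega, h3', h4']
  unfold u
  rw [one_div_div]
  split_ifs
  · field_simp
  · rfl

/-! ### Bounds -/

theorem t_odd_ne {j : ℕ} (hj : Even j) : t (j + 1) ≠ t j := by
  obtain ⟨i, rfl⟩ := hj
  rw [← two_mul, t_two_mul_add_one, t_two_mul]
  rcases t_sq i with h1 | h1 <;> rw [h1] <;> norm_num

theorem u_bounds (j : ℕ) (hj : 1 ≤ j) : 2 / 5 ≤ u j ∧ u j ≤ 3 / 2 ∧ (Odd j → u j ≤ 1) := by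
  induction j, hj using Nat.le_induction with
  | base =>
    have : u 1 = 1 := by
      have := u_succ 0
      rw [zero_add, if_neg (by simpa using t_odd_ne (j := 0) (by norm_num)), u_zero] at this
      simpa using this
    rw [this]; norm_num
  | succ j hj ih =>
    obtain ⟨h1, h2, h3⟩ := ih
    have hp : 0 < 1 + u j := by linarith
    rw [u_succ]
    split_ifs with ht
    · have hodd : Odd j := by
        by_contra hc
        exact t_odd_ne (Nat.not_odd_iff_even.mp hc) ht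
      have h4 := h3 hodd
      have h5 : 1 / (1 + u j) ≤ 1 := by
        rw [div_le_one hp]; linarith
      have h6 : 1 / 2 ≤ 1 / (1 + u j) := by
        apply one_div_le_one_div_of_le hp; linarith
      refine ⟨by linarith, by linarith, ?_⟩
      intro hodd'
      exfalso
      rw [Nat.odd_add_one] at hodd'
      exact hodd' hodd
    · have h5 : 1 / (1 + u j) ≤ 1 := by
        rw [div_le_one hp]; linarith
      have h6 : 2 / 5 ≤ 1 / (1 + u j) := by
        rw [div_le_div_iff₀ (by norm_num) hp]; linarith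
      exact ⟨h6, by linarith, fun _ => h5⟩

end Pool.Agent.Helper84_TMFib
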