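import Mathlib
import Pool.Agent.Helper84_TMFib.Basic

set_option autoImplicit false

namespace Pool.Agent.Helper84_TMFib

/-- the composition of the first `r` maps -/
noncomputable def Phi : ℕ → ℝ → ℝ
  | 0, x => x
  | r + 1, x => if t (r + 1) = t r then 2 - 1 / (1 + Phi r x) else 1 / (1 + Phi r x)

theorem Phi_nonneg (r : ℕ) {x : ℝ} (hx : 0 ≤ x) : 0 ≤ Phi r x := by
  induction r with
  | zero => exact hx
  | succ r ih =>
    unfold Phi
    have hp : 0 < 1 + Phi r x := by linarith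
    have h5 : 1 / (1 + Phi r x) ≤ 1 := by
      rw [div_le_one hp]; linarith
    split_ifs
    · linarith
    · positivity

theorem Phi_mono (r : ℕ) {x y : ℝ} (hx : 0 ≤ x) (hxy : x ≤ y) :
    (t r = 1 → Phi r x ≤ Phi r y) ∧ (t r = -1 → Phi r y ≤ Phi r x) := by
  induction r with
  | zero =>
    refine ⟨fun _ => hxy, fun h => ?_⟩
    rw [t_zero] at h
    norm_num at h
  | succ r ih =>
    have hx' := Phi_nonneg r hx
    have hy' := Phi_nonneg r (hx.trans hxy)
    have key : ∀ {a b : ℝ}, 0 ≤ a → a ≤ b → 1 / (1 + b) ≤ 1 / (1 + a) := by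
      intro a b ha hab
      apply one_div_le_one_div_of_le <;> linarith
    unfold Phi
    rcases t_sq r with h1 | h1 <;> rcases t_sq (r + 1) with h2 | h2 <;> rw [h1, h2]
    · refine ⟨fun _ => ?_, fun h => by norm_num at h⟩
      rw [if_pos rfl, if_pos rfl]
      have := key hx' (ih.1 h1)
      linarith
    · refine ⟨fun h => by norm_num at h, fun _ => ?_⟩
      rw [if_neg (by norm_num), if_neg (by norm_num)]
      exact key hx' (ih.1 h1)
    · refine ⟨fun _ => ?_, fun h => by norm_num at h⟩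
      rw [if_neg (by norm_num), if_neg (by norm_num)]
      exact key hy' (ih.2 h1)
    · refine ⟨fun h => by norm_num at h, fun _ => ?_⟩
      rw [if_pos rfl, if_pos rfl]
      have := key hy' (ih.2 h1)
      linarith

theorem Phi_zero (r : ℕ) : Phi r 0 = u r := by
  induction r with
  | zero => rw [u_zero]; rfl
  | succ r ih => rw [u_succ]; unfold Phi; rw [ih]

theorem t_ne_zero (n : ℕ) : t n ≠ 0 := by
  rcases t_sq n with h | h <;> rw [h] <;> norm_num

theorem u_shift (K q r : ℕ) (hr : r < 2 ^ K) : u (2 ^ K * q + r) = Phi r (u (2 ^ K * q)) := by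
  induction r with
  | zero => rfl
  | succ r ih =>
    rw [← add_assoc, u_succ, ih (by omega)]
    conv_rhs => unfold Phi
    have h1 : t (2 ^ K * q + r + 1) = t q * t (r + 1) := by
      rw [add_assoc]; exact t_add K q (r + 1) hr
    have h2 : t (2 ^ K * q + r) = t q * t r := t_add K q r (by omega)
    have h3 : (t (2 ^ K * q + r + 1) = t (2 ^ K * q + r)) ↔ (t (r + 1) = t r) := by
      rw [h1, h2]
      exact mul_right_inj' (t_ne_zero q)
    simp only [h3]

theorem u_shift_full (K q : ℕ) (hq : t (q + 1) ≠ t q) :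
    u (2 ^ K * (q + 1)) = Phi (2 ^ K) (u (2 ^ K * q)) := by
  obtain ⟨m, hm⟩ : ∃ m, 2 ^ K = m + 1 := ⟨2 ^ K - 1, by
    have : 1 ≤ 2 ^ K := Nat.one_le_two_pow
    omega⟩
  have h0 : 2 ^ K * (q + 1) = (2 ^ K * q + m) + 1 := by rw [mul_add, mul_one, hm]; ring
  rw [h0, u_succ, u_shift K q m (by omega)]
  rw [hm]
  conv_rhs => unfold Phi
  rw [← hm]
  have h1 : t (2 ^ K * q + m + 1) = t (q + 1) := by
    rw [← h0]; exact t_pow_mul K (q + 1)
  have h2 : t (2 ^ K * q + m) = t q * t m := t_add K q m (by omega)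
  have h4 : t (m + 1) = -1 := by
    rw [← hm]
    have := t_pow_mul K 1
    rw [mul_one] at this
    rw [this]
    have := t_two_mul_add_one 0
    simpa [t_zero] using this
  have h3 : (t (2 ^ K * q + m + 1) = t (2 ^ K * q + m)) ↔ (t (m + 1) = t m) := by
    rw [h1, h2, h4]
    rcases t_sq q with a1 | a1 <;> rcases t_sq (q + 1) with a2 | a2 <;>
      rcases t_sq m with a3 | a3 <;> rw [a1, a2] at hq <;> rw [a1, a2, a3] <;> simp at hq ⊢
  simp only [h3]
  rw [hm]

theorem t_pow (K : ℕ) : t (2 ^ K) = -1 := by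
  have := t_pow_mul K 1
  rw [mul_one] at this
  rw [this]
  have := t_two_mul_add_one 0
  simpa [t_zero] using this

/-- type `g` (`t (j+1) = t j`) gives `u ≥ 1`, type `f` gives `u ≤ 1`. -/
theorem u_type_g {j : ℕ} (hj : t (j + 1) = t j) : 1 ≤ u (j + 1) := by
  rw [u_succ, if_pos hj]
  have := u_nonneg j
  have h5 : 1 / (1 + u j) ≤ 1 := by
    rw [div_le_one (by linarith)]; linarith
  linarith

theorem u_type_f {j : ℕ} (hj : t (j + 1) ≠ t j) : u (j + 1) ≤ 1 := by
  rw [u_succ, if_neg hj]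
  have := u_nonneg j
  rw [div_le_one (by linarith)]; linarith

/-- the smallest odd number `≥ K` -/
def eo (K : ℕ) : ℕ := if Even K then K + 1 else K

/-- the smallest even number `≥ K` -/
def ee (K : ℕ) : ℕ := if Even K then K else K + 1

theorem eo_odd (K : ℕ) : Odd (eo K) := by
  unfold eo
  split_ifs with h
  · exact h.add_one
  · exact Nat.not_even_iff_odd.mp h

theorem ee_even (K : ℕ) : Even (ee K) := by
  unfold ee
  split_ifs with h
  · exact h
  · exact (Nat.not_even_iff_odd.mp h).add_one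

theorem le_eo (K : ℕ) : K ≤ eo K := by unfold eo; split_ifs <;> omega

theorem le_ee (K : ℕ) : K ≤ ee K := by unfold ee; split_ifs <;> omega

/-- an index `2^K (q+1)` of type `g` is `2^e (q'+1)` with `q'` of type `f`, `e = eo K`. -/
theorem g_struct (K q : ℕ) (hg : t (2 ^ K * (q + 1)) = t (2 ^ K * (q + 1) - 1)) :
    ∃ q', 2 ^ K * (q + 1) = 2 ^ (eo K) * (q' + 1) ∧ t (q' + 1) ≠ t q' := by
  rw [t_pow_mul, t_pow_mul_sub_one] at hg
  unfold eo
  split_ifs with hK
  · rw [hK.neg_one_pow, mul_one] at hg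
    have hodd : Odd q := by
      by_contra hc
      exact t_odd_ne (Nat.not_odd_iff_even.mp hc) hg
    obtain ⟨p, rfl⟩ := hodd
    refine ⟨p, by rw [pow_succ]; ring, ?_⟩
    rw [show 2 * p + 1 + 1 = 2 * (p + 1) by ring, t_two_mul, t_two_mul_add_one] at hg
    rw [hg]
    rcases t_sq p with h1 | h1 <;> rw [h1] <;> norm_num
  · rw [(Nat.not_even_iff_odd.mp hK).neg_one_pow] at hg
    refine ⟨q, rfl, ?_⟩
    rw [hg]
    rcases t_sq q with h1 | h1 <;> rw [h1] <;> norm_num

theorem f_struct (K q : ℕ) (hg : t (2 ^ K * (q + 1)) ≠ t (2 ^ K * (q + 1) - 1)) :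
    ∃ q', 2 ^ K * (q + 1) = 2 ^ (ee K) * (q' + 1) ∧ t (q' + 1) ≠ t q' := by
  rw [t_pow_mul, t_pow_mul_sub_one] at hg
  unfold ee
  split_ifs with hK
  · rw [hK.neg_one_pow, mul_one] at hg
    exact ⟨q, rfl, hg⟩
  · rw [(Nat.not_even_iff_odd.mp hK).neg_one_pow] at hg
    have hg' : t (q + 1) = t q := by
      rcases t_sq q with h1 | h1 <;> rcases t_sq (q + 1) with h2 | h2 <;> rw [h1, h2] at hg <;>
        rw [h1, h2] <;> norm_num at hg
    have hodd : Odd q := by
      by_contra hc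
      exact t_odd_ne (Nat.not_odd_iff_even.mp hc) hg'
    obtain ⟨p, rfl⟩ := hodd
    refine ⟨p, by rw [pow_succ]; ring, ?_⟩
    rw [show 2 * p + 1 + 1 = 2 * (p + 1) by ring, t_two_mul, t_two_mul_add_one] at hg'
    rw [hg']
    rcases t_sq p with h1 | h1 <;> rw [h1] <;> norm_num

/-- converse computations of type -/
theorem type_even {e : ℕ} (he : Even e) {q : ℕ} (hq : t (q + 1) ≠ t q) :
    t (2 ^ e * (q + 1)) ≠ t (2 ^ e * (q + 1) - 1) := by
  rw [t_pow_mul, t_pow_mul_sub_one, he.neg_one_pow, mul_one]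
  exact hq

theorem type_odd {e : ℕ} (he : Odd e) {q : ℕ} (hq : t (q + 1) ≠ t q) :
    t (2 ^ e * (q + 1)) = t (2 ^ e * (q + 1) - 1) := by
  rw [t_pow_mul, t_pow_mul_sub_one, he.neg_one_pow]
  rcases t_sq q with h1 | h1 <;> rcases t_sq (q + 1) with h2 | h2 <;> rw [h1, h2] at hq <;>
    rw [h1, h2] <;> simp at hq ⊢

theorem u_ge_one_of_g {j : ℕ} (hj : 1 ≤ j) (hg : t j = t (j - 1)) : 1 ≤ u j := by
  obtain ⟨i, rfl⟩ : ∃ i, j = i + 1 := ⟨j - 1, by omega⟩
  exact u_type_g (by simpa using hg)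

theorem u_le_one_of_f {j : ℕ} (hj : 1 ≤ j) (hg : t j ≠ t (j - 1)) : u j ≤ 1 := by
  obtain ⟨i, rfl⟩ : ∃ i, j = i + 1 := ⟨j - 1, by omega⟩
  exact u_type_f (by simpa using hg)

theorem t_one : t 1 = -1 := by
  have := t_two_mul_add_one 0
  simpa [t_zero] using this

theorem t_two : t 2 = -1 := by
  have := t_two_mul 1
  rw [t_one] at this
  exact this

theorem t_three : t 3 = 1 := by
  have := t_two_mul_add_one 1
  rw [t_one] at this
  simpa using this

/-- The maximum of `u` over the positive multiples of `2^K` (zero included) is at `2^(eo K)`. -/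
theorem u_max (K q : ℕ) : u (2 ^ K * q) ≤ u (2 ^ (eo K)) := by
  rcases Nat.eq_zero_or_pos q with rfl | hq
  · rw [mul_zero, u_zero]; exact u_nonneg _
  obtain ⟨p, rfl⟩ : ∃ p, q = p + 1 := ⟨q - 1, by omega⟩
  have h1 : 1 ≤ u (2 ^ (eo K)) := by
    have := type_odd (eo_odd K) (q := 0) (by rw [zero_add, t_one, t_zero]; norm_num)
    rw [zero_add, mul_one] at this
    exact u_ge_one_of_g Nat.one_le_two_pow this
  by_cases hg : t (2 ^ K * (p + 1)) = t (2 ^ K * (p + 1) - 1)
  · obtain ⟨q', h2, h3⟩ := g_struct K p hg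
    rw [h2, u_shift_full _ _ h3]
    have h4 := (Phi_mono (2 ^ (eo K)) (le_refl (0 : ℝ)) (u_nonneg (2 ^ (eo K) * q'))).2 (t_pow _)
    rw [Phi_zero] at h4
    exact h4
  · refine le_trans (u_le_one_of_f ?_ hg) h1
    have : 1 ≤ 2 ^ K := Nat.one_le_two_pow
    nlinarith

/-- The minimum of `u` over the positive multiples of `2^K` is at `3 * 2^(ee K)`. -/
theorem u_min (K q : ℕ) (hq : 1 ≤ q) : u (2 ^ (ee K) * 3) ≤ u (2 ^ K * q) := by
  obtain ⟨p, rfl⟩ : ∃ p, q = p + 1 := ⟨q - 1, by omega⟩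
  have h32 : t (2 + 1) ≠ t 2 := by rw [t_three, t_two]; norm_num
  have hf : u (2 ^ (ee K) * 3) ≤ 1 := by
    have := type_even (ee_even K) h32
    refine u_le_one_of_f ?_ this
    have : 1 ≤ 2 ^ (ee K) := Nat.one_le_two_pow
    omega
  by_cases hg : t (2 ^ K * (p + 1)) = t (2 ^ K * (p + 1) - 1)
  · refine le_trans hf (u_ge_one_of_g ?_ hg)
    have : 1 ≤ 2 ^ K := Nat.one_le_two_pow
    nlinarith
  · obtain ⟨q', h2, h3⟩ := f_struct K p hg
    rw [h2, u_shift_full _ _ h3, u_shift_full _ 2 h32]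
    refine (Phi_mono (2 ^ (ee K)) (u_nonneg _) ?_).2 (t_pow _)
    have h5 := u_max (ee K) q'
    have h6 : eo (ee K) = ee K + 1 := by
      unfold eo; rw [if_pos (ee_even K)]
    rw [h6, pow_succ] at h5
    exact h5

end Pool.Agent.Helper84_TMFib
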