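import Mathlib
import Pool.Agent.Helper84_TMFib.Extremal

set_option autoImplicit false

namespace Pool.Agent.Helper84_TMFib

theorem pow_eo (K : ℕ) : 2 ^ K * 2 ^ (eo K - K) = 2 ^ (eo K) := by
  rw [← pow_add]; congr 1; have := le_eo K; omega

theorem pow_ee (K : ℕ) : 2 ^ K * 2 ^ (ee K - K) = 2 ^ (ee K) := by
  rw [← pow_add]; congr 1; have := le_ee K; omega

theorem class_max (K c : ℕ) (hc : c < 2 ^ K) : ∃ q0, 1 ≤ 2 ^ K * q0 + c ∧
    ∀ q, 1 ≤ 2 ^ K * q + c → u (2 ^ K * q + c) ≤ u (2 ^ K * q0 + c) := by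
  rcases Nat.eq_zero_or_pos c with rfl | hc0
  · refine ⟨2 ^ (eo K - K), ?_, ?_⟩
    · rw [add_zero, pow_eo]; exact Nat.one_le_two_pow
    · intro q _
      rw [add_zero, add_zero, pow_eo]
      exact u_max K q
  · rcases t_sq c with ht | ht
    · refine ⟨2 ^ (eo K - K), by omega, ?_⟩
      intro q _
      rw [u_shift K q c hc, u_shift K _ c hc, pow_eo]
      exact (Phi_mono c (u_nonneg _) (u_max K q)).1 ht
    · refine ⟨0, by omega, ?_⟩
      intro q _
      rw [u_shift K q c hc, u_shift K _ c hc, mul_zero, u_zero]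
      exact (Phi_mono c le_rfl (u_nonneg _)).2 ht

theorem class_min (K c : ℕ) (hc : c < 2 ^ K) : ∃ q0, 1 ≤ 2 ^ K * q0 + c ∧
    ∀ q, 1 ≤ 2 ^ K * q + c → u (2 ^ K * q0 + c) ≤ u (2 ^ K * q + c) := by
  rcases Nat.eq_zero_or_pos c with rfl | hc0
  · refine ⟨2 ^ (ee K - K) * 3, ?_, ?_⟩
    · have : 1 ≤ 2 ^ K * (2 ^ (ee K - K) * 3) := by
        have := Nat.one_le_two_pow (n := K)
        have := Nat.one_le_two_pow (n := ee K - K)
        nlinarith
      omega
    · intro q hq
      rw [add_zero, add_zero, ← mul_assoc, pow_ee]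
      apply u_min K q
      by_contra hcon
      have : q = 0 := by omega
      subst this
      simp at hq
  · rcases t_sq c with ht | ht
    · refine ⟨0, by omega, ?_⟩
      intro q _
      rw [u_shift K q c hc, u_shift K _ c hc, mul_zero, u_zero]
      exact (Phi_mono c le_rfl (u_nonneg _)).1 ht
    · refine ⟨2 ^ (eo K - K), by omega, ?_⟩
      intro q _
      rw [u_shift K q c hc, u_shift K _ c hc, pow_eo]
      exact (Phi_mono c (u_nonneg _) (u_max K q)).2 ht

theorem t_ne_iff {a b : ℕ} : t a ≠ t b ↔ t a = - t b := by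
  rcases t_sq a with h1 | h1 <;> rcases t_sq b with h2 | h2 <;> rw [h1, h2] <;> norm_num

/-- general lower bound on `ρ`. -/
theorem rho_ge (N : ℕ) (hN : 5 ≤ N) : 2 / 7 ≤ rho N := by
  obtain ⟨j, s, hj, hs, rfl⟩ : ∃ j s, 1 ≤ j ∧ s < 4 ∧ N = 4 * j + s + 1 :=
    ⟨(N - 1) / 4, (N - 1) % 4, by omega, by omega, by omega⟩
  obtain ⟨h1, h2, -⟩ := u_bounds j hj
  have hpos := u_pos hj
  interval_cases s
  · rw [show 4 * j + 0 + 1 = 4 * j + 1 by ring, rho_1, div_le_div_iff₀ (by norm_num) hpos]
    linarith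
  · rw [show 4 * j + 1 + 1 = 4 * j + 2 by ring, rho_2]
    linarith
  · rw [show 4 * j + 2 + 1 = 4 * j + 3 by ring, rho_3]
    have : 1 / (1 + u j) ≤ 5 / 7 := by
      rw [div_le_div_iff₀ (by linarith) (by norm_num)]; linarith
    linarith
  · rw [show 4 * j + 3 + 1 = 4 * j + 4 by ring, rho_4 hj]
    have : 2 / 7 ≤ 1 / u j := by
      rw [div_le_div_iff₀ (by norm_num) hpos]
      linarith
    split_ifs <;> linarith

theorem rho_even_ge (N : ℕ) (hN : 3 ≤ N) : 2 / 3 ≤ rho (2 * N) := by
  obtain ⟨j, s, hj, hs, h0⟩ : ∃ j s, 1 ≤ j ∧ s < 2 ∧ N = 2 * j + s + 1 :=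
    ⟨(N - 1) / 2, (N - 1) % 2, by omega, by omega, by omega⟩
  subst h0
  obtain ⟨h1, h2, -⟩ := u_bounds j hj
  have hpos := u_pos hj
  interval_cases s
  · rw [show 2 * (2 * j + 0 + 1) = 4 * j + 2 by ring, rho_2]
    linarith
  · rw [show 2 * (2 * j + 1 + 1) = 4 * j + 4 by ring, rho_4 hj]
    have : 2 / 3 ≤ 1 / u j := by
      rw [div_le_div_iff₀ (by norm_num) hpos]
      linarith
    split_ifs <;> linarith

theorem u1 : u 1 = 1 := by
  have := u_succ 0
  rw [zero_add, t_one, t_zero, if_neg (by norm_num), u_zero] at this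
  rw [this]; norm_num

theorem u2 : u 2 = 3 / 2 := by
  have := u_succ 1
  rw [show 1 + 1 = 2 by norm_num, t_two, t_one, if_pos rfl, u1] at this
  rw [this]; norm_num

theorem u3 : u 3 = 2 / 5 := by
  have := u_succ 2
  rw [show 2 + 1 = 3 by norm_num, t_two, t_three, if_neg (by norm_num), u2] at this
  rw [this]; norm_num

theorem rho_15 : rho 15 = 2 / 7 := by
  have := rho_3 3
  rw [u3] at this
  norm_num at this
  exact this

theorem rho_12 : rho 12 = 2 / 3 := by
  have := rho_4 (j := 2) (by norm_num)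
  rw [show 4 * 2 + 4 = 12 by norm_num, show 2 + 1 = 3 by norm_num, t_three, t_two,
    if_neg (by norm_num), u2] at this
  rw [this]; norm_num

/-- The infimum of `ρ` over every residue class modulo a power of two is attained. -/
theorem attained (k i : ℕ) (hk : 1 ≤ k) (hi : i < 2 ^ k) : ∃ n0, 4 ≤ 2 ^ k * n0 + i ∧
    ∀ n, 4 ≤ 2 ^ k * n + i → rho (2 ^ k * n0 + i + 1) ≤ rho (2 ^ k * n + i + 1) := by
  rcases Nat.lt_or_ge k 2 with hk2 | hk2
  · have : k = 1 := by omega
    subst this
    have : i = 0 ∨ i = 1 := by omega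
    rcases this with rfl | rfl
    · refine ⟨7, by norm_num, ?_⟩
      intro n hn
      rw [show 2 ^ 1 * 7 + 0 + 1 = 15 by norm_num, rho_15]
      exact rho_ge _ (by omega)
    · refine ⟨5, by norm_num, ?_⟩
      intro n hn
      rw [show 2 ^ 1 * 5 + 1 + 1 = 12 by norm_num, rho_12]
      have := rho_even_ge (n + 1) (by omega)
      rw [show 2 ^ 1 * n + 1 + 1 = 2 * (n + 1) by ring]
      exact this
  · obtain ⟨K, rfl⟩ : ∃ K, k = K + 2 := ⟨k - 2, by omega⟩
    have hpw : 2 ^ (K + 2) = 4 * 2 ^ K := by rw [pow_add]; ring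
    obtain ⟨c, s, hs, hcs⟩ : ∃ c s, s < 4 ∧ i = 4 * c + s := ⟨i / 4, i % 4, by omega, by omega⟩
    subst hcs
    have hc : c < 2 ^ K := by rw [hpw] at hi; omega
    have hidx : ∀ n, 2 ^ (K + 2) * n + (4 * c + s) = 4 * (2 ^ K * n + c) + s := by
      intro n; rw [hpw]; ring
    simp only [hidx]
    have hge : ∀ n, 4 ≤ 4 * (2 ^ K * n + c) + s ↔ 1 ≤ 2 ^ K * n + c := by
      intro n; omega
    simp only [hge]
    interval_cases s
    · obtain ⟨q0, h1, h2⟩ := class_max K c hc
      refine ⟨q0, h1, ?_⟩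
      intro n hn
      rw [show 4 * (2 ^ K * q0 + c) + 0 + 1 = 4 * (2 ^ K * q0 + c) + 1 by ring,
        show 4 * (2 ^ K * n + c) + 0 + 1 = 4 * (2 ^ K * n + c) + 1 by ring, rho_1, rho_1]
      exact one_div_le_one_div_of_le (u_pos hn) (h2 n hn)
    · obtain ⟨q0, h1, h2⟩ := class_min K c hc
      refine ⟨q0, h1, ?_⟩
      intro n hn
      rw [show 4 * (2 ^ K * q0 + c) + 1 + 1 = 4 * (2 ^ K * q0 + c) + 2 by ring,
        show 4 * (2 ^ K * n + c) + 1 + 1 = 4 * (2 ^ K * n + c) + 2 by ring, rho_2, rho_2]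
      have := h2 n hn
      linarith
    · obtain ⟨q0, h1, h2⟩ := class_min K c hc
      refine ⟨q0, h1, ?_⟩
      intro n hn
      rw [show 4 * (2 ^ K * q0 + c) + 2 + 1 = 4 * (2 ^ K * q0 + c) + 3 by ring,
        show 4 * (2 ^ K * n + c) + 2 + 1 = 4 * (2 ^ K * n + c) + 3 by ring, rho_3, rho_3]
      have h3 := h2 n hn
      have h4 := u_pos h1
      have : 1 / (1 + u (2 ^ K * n + c)) ≤ 1 / (1 + u (2 ^ K * q0 + c)) :=
        one_div_le_one_div_of_le (by linarith) (by linarith)
      linarith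
    · have e3 : ∀ m, 4 * (2 ^ K * m + c) + 3 + 1 = 4 * (2 ^ K * m + c) + 4 := by
        intro m; ring
      simp only [e3]
      rcases Nat.lt_or_ge (c + 1) (2 ^ K) with hc1 | hc1
      · -- the type of the next index is constant
        obtain ⟨q0, h1, h2⟩ := class_max K c hc
        refine ⟨q0, h1, ?_⟩
        intro n hn
        rw [rho_4 h1, rho_4 hn]
        have hty : ∀ m, (t (2 ^ K * m + c + 1) = t (2 ^ K * m + c)) ↔ (t (c + 1) = t c) := by
          intro m
          rw [add_assoc, t_add K m (c + 1) hc1, t_add K m c hc]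
          exact mul_right_inj' (t_ne_zero m)
        simp only [hty]
        have := one_div_le_one_div_of_le (u_pos hn) (h2 n hn)
        split_ifs <;> linarith
      · -- c + 1 = 2^K
        have hc2 : c + 1 = 2 ^ K := by omega
        have e4 : ∀ m, 2 ^ K * m + c + 1 = 2 ^ K * (m + 1) := by
          intro m; rw [add_assoc, hc2]; ring
        -- candidate
        obtain ⟨p, hp⟩ : ∃ p, 2 ^ (ee K - K) * 3 = p + 1 := ⟨2 ^ (ee K - K) * 3 - 1, by
          have := Nat.one_le_two_pow (n := ee K - K)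
          omega⟩
        have hp2 : 2 ≤ p := by
          have := Nat.one_le_two_pow (n := ee K - K)
          omega
        have hK1 : 1 ≤ 2 ^ K := Nat.one_le_two_pow
        have hj0 : 1 ≤ 2 ^ K * p + c := by
          have : 1 ≤ 2 ^ K * p := by nlinarith
          omega
        have e5 : 2 ^ K * (p + 1) = 2 ^ (ee K) * 3 := by
          rw [← hp, ← mul_assoc, pow_ee]
        have h32 : t (2 + 1) ≠ t 2 := by rw [t_three, t_two]; norm_num
        have hf0 : t (2 ^ K * p + c + 1) ≠ t (2 ^ K * p + c) := by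
          have := type_even (ee_even K) h32
          rw [show 2 + 1 = 3 by norm_num, ← e5] at this
          have e6 : 2 ^ K * (p + 1) - 1 = 2 ^ K * p + c := by
            have := e4 p
            omega
          rw [e6] at this
          rw [e4]
          exact this
        refine ⟨p, hj0, ?_⟩
        intro n hn
        rw [rho_4 hj0, rho_4 hn, if_neg hf0]
        have hbd := u_bounds _ hj0
        have hbdn := u_bounds _ hn
        have hlow : 1 / u (2 ^ K * p + c) ≤ 5 / 2 := by
          rw [div_le_div_iff₀ (u_pos hj0) (by norm_num)]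
          linarith [hbd.1]
        have hn0 : 0 < 1 / u (2 ^ K * n + c) := by
          have := u_pos hn
          positivity
        split_ifs with hgn
        · have : 2 / 3 ≤ 1 / u (2 ^ K * n + c) := by
            rw [div_le_div_iff₀ (by norm_num) (u_pos hn)]
            linarith [hbdn.2.1]
          linarith
        · have h7 := u_min K (n + 1) (by omega)
          rw [← e5, ← e4, ← e4, u_succ, u_succ, if_neg hf0, if_neg hgn] at h7
          have h8 := u_pos hn
          have h9 := u_pos hj0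
          rw [div_le_div_iff₀ (by linarith) (by linarith)] at h7
          apply one_div_le_one_div_of_le h8
          linarith

end Pool.Agent.Helper84_TMFib
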