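import Mathlib
import Pool.Agent.Helper84_TMFib.Classes

set_option autoImplicit false

namespace Pool.Agent.Helper84_TMFib


theorem t4 : t 4 = -1 := by
  have := t_two_mul 2
  rw [t_two] at this
  exact this

theorem t5 : t 5 = 1 := by
  have := t_two_mul_add_one 2
  rw [t_two] at this
  simpa using this

theorem t6 : t 6 = 1 := by
  have := t_two_mul 3
  rw [t_three] at this
  exact this

theorem t7 : t 7 = -1 := by
  have := t_two_mul_add_one 3
  rw [t_three] at this
  simpa using this

theorem t8 : t 8 = -1 := by
  have := t_two_mul 4
  rw [t4] at this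
  exact this

theorem t9 : t 9 = 1 := by
  have := t_two_mul_add_one 4
  rw [t4] at this
  simpa using this

theorem t10 : t 10 = 1 := by
  have := t_two_mul 5
  rw [t5] at this
  exact this

theorem t11 : t 11 = -1 := by
  have := t_two_mul_add_one 5
  rw [t5] at this
  simpa using this

theorem t12 : t 12 = 1 := by
  have := t_two_mul 6
  rw [t6] at this
  exact this

theorem t13 : t 13 = -1 := by
  have := t_two_mul_add_one 6
  rw [t6] at this
  simpa using this

theorem t14 : t 14 = -1 := by
  have := t_two_mul 7
  rw [t7] at this
  exact this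

theorem t15 : t 15 = 1 := by
  have := t_two_mul_add_one 7
  rw [t7] at this
  simpa using this

theorem t16 : t 16 = -1 := by
  have := t_two_mul 8
  rw [t8] at this
  exact this

theorem t17 : t 17 = 1 := by
  have := t_two_mul_add_one 8
  rw [t8] at this
  simpa using this

theorem t18 : t 18 = 1 := by
  have := t_two_mul 9
  rw [t9] at this
  exact this

theorem t19 : t 19 = -1 := by
  have := t_two_mul_add_one 9
  rw [t9] at this
  simpa using this

theorem t20 : t 20 = 1 := by
  have := t_two_mul 10
  rw [t10] at this
  exact this

theorem t21 : t 21 = -1 := by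
  have := t_two_mul_add_one 10
  rw [t10] at this
  simpa using this

theorem t22 : t 22 = -1 := by
  have := t_two_mul 11
  rw [t11] at this
  exact this

theorem t23 : t 23 = 1 := by
  have := t_two_mul_add_one 11
  rw [t11] at this
  simpa using this

theorem t24 : t 24 = 1 := by
  have := t_two_mul 12
  rw [t12] at this
  exact this

theorem t25 : t 25 = -1 := by
  have := t_two_mul_add_one 12
  rw [t12] at this
  simpa using this

theorem t26 : t 26 = -1 := by
  have := t_two_mul 13
  rw [t13] at this
  exact this

theorem t27 : t 27 = 1 := by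
  have := t_two_mul_add_one 13
  rw [t13] at this
  simpa using this

theorem t28 : t 28 = -1 := by
  have := t_two_mul 14
  rw [t14] at this
  exact this

theorem t29 : t 29 = 1 := by
  have := t_two_mul_add_one 14
  rw [t14] at this
  simpa using this

theorem t30 : t 30 = 1 := by
  have := t_two_mul 15
  rw [t15] at this
  exact this

theorem t31 : t 31 = -1 := by
  have := t_two_mul_add_one 15
  rw [t15] at this
  simpa using this

theorem t32 : t 32 = -1 := by
  have := t_two_mul 16
  rw [t16] at this
  exact this

theorem u4 : u 4 = 5 / 7 := by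
  have := u_succ 3
  rw [show 3 + 1 = 4 by norm_num, t4, t_three, if_neg (by norm_num), u3] at this
  rw [this]; norm_num

theorem u5 : u 5 = 7 / 12 := by
  have := u_succ 4
  rw [show 4 + 1 = 5 by norm_num, t5, t4, if_neg (by norm_num), u4] at this
  rw [this]; norm_num

theorem u6 : u 6 = 26 / 19 := by
  have := u_succ 5
  rw [show 5 + 1 = 6 by norm_num, t6, t5, if_pos rfl, u5] at this
  rw [this]; norm_num

theorem u7 : u 7 = 19 / 45 := by
  have := u_succ 6
  rw [show 6 + 1 = 7 by norm_num, t7, t6, if_neg (by norm_num), u6] at this
  rw [this]; norm_num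

theorem u8 : u 8 = 83 / 64 := by
  have := u_succ 7
  rw [show 7 + 1 = 8 by norm_num, t8, t7, if_pos rfl, u7] at this
  rw [this]; norm_num

theorem u9 : u 9 = 64 / 147 := by
  have := u_succ 8
  rw [show 8 + 1 = 9 by norm_num, t9, t8, if_neg (by norm_num), u8] at this
  rw [this]; norm_num

theorem u10 : u 10 = 275 / 211 := by
  have := u_succ 9
  rw [show 9 + 1 = 10 by norm_num, t10, t9, if_pos rfl, u9] at this
  rw [this]; norm_num

theorem u11 : u 11 = 211 / 486 := by
  have := u_succ 10
  rw [show 10 + 1 = 11 by norm_num, t11, t10, if_neg (by norm_num), u10] at this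
  rw [this]; norm_num

theorem u12 : u 12 = 486 / 697 := by
  have := u_succ 11
  rw [show 11 + 1 = 12 by norm_num, t12, t11, if_neg (by norm_num), u11] at this
  rw [this]; norm_num

theorem u13 : u 13 = 697 / 1183 := by
  have := u_succ 12
  rw [show 12 + 1 = 13 by norm_num, t13, t12, if_neg (by norm_num), u12] at this
  rw [this]; norm_num

theorem u14 : u 14 = 2577 / 1880 := by
  have := u_succ 13
  rw [show 13 + 1 = 14 by norm_num, t14, t13, if_pos rfl, u13] at this
  rw [this]; norm_num

theorem u15 : u 15 = 1880 / 4457 := by
  have := u_succ 14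
  rw [show 14 + 1 = 15 by norm_num, t15, t14, if_neg (by norm_num), u14] at this
  rw [this]; norm_num

theorem u16 : u 16 = 4457 / 6337 := by
  have := u_succ 15
  rw [show 15 + 1 = 16 by norm_num, t16, t15, if_neg (by norm_num), u15] at this
  rw [this]; norm_num

theorem u17 : u 17 = 6337 / 10794 := by
  have := u_succ 16
  rw [show 16 + 1 = 17 by norm_num, t17, t16, if_neg (by norm_num), u16] at this
  rw [this]; norm_num

theorem u18 : u 18 = 23468 / 17131 := by
  have := u_succ 17
  rw [show 17 + 1 = 18 by norm_num, t18, t17, if_pos rfl, u17] at this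
  rw [this]; norm_num

theorem u19 : u 19 = 17131 / 40599 := by
  have := u_succ 18
  rw [show 18 + 1 = 19 by norm_num, t19, t18, if_neg (by norm_num), u18] at this
  rw [this]; norm_num

theorem u20 : u 20 = 40599 / 57730 := by
  have := u_succ 19
  rw [show 19 + 1 = 20 by norm_num, t20, t19, if_neg (by norm_num), u19] at this
  rw [this]; norm_num

theorem u21 : u 21 = 57730 / 98329 := by
  have := u_succ 20
  rw [show 20 + 1 = 21 by norm_num, t21, t20, if_neg (by norm_num), u20] at this
  rw [this]; norm_num

theorem u22 : u 22 = 213789 / 156059 := by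
  have := u_succ 21
  rw [show 21 + 1 = 22 by norm_num, t22, t21, if_pos rfl, u21] at this
  rw [this]; norm_num

theorem u23 : u 23 = 156059 / 369848 := by
  have := u_succ 22
  rw [show 22 + 1 = 23 by norm_num, t23, t22, if_neg (by norm_num), u22] at this
  rw [this]; norm_num

theorem u24 : u 24 = 681966 / 525907 := by
  have := u_succ 23
  rw [show 23 + 1 = 24 by norm_num, t24, t23, if_pos rfl, u23] at this
  rw [this]; norm_num

theorem u25 : u 25 = 525907 / 1207873 := by
  have := u_succ 24
  rw [show 24 + 1 = 25 by norm_num, t25, t24, if_neg (by norm_num), u24] at this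
  rw [this]; norm_num

theorem u26 : u 26 = 2259687 / 1733780 := by
  have := u_succ 25
  rw [show 25 + 1 = 26 by norm_num, t26, t25, if_pos rfl, u25] at this
  rw [this]; norm_num

theorem u27 : u 27 = 1733780 / 3993467 := by
  have := u_succ 26
  rw [show 26 + 1 = 27 by norm_num, t27, t26, if_neg (by norm_num), u26] at this
  rw [this]; norm_num

theorem u28 : u 28 = 3993467 / 5727247 := by
  have := u_succ 27
  rw [show 27 + 1 = 28 by norm_num, t28, t27, if_neg (by norm_num), u27] at this
  rw [this]; norm_num

theorem u29 : u 29 = 5727247 / 9720714 := by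
  have := u_succ 28
  rw [show 28 + 1 = 29 by norm_num, t29, t28, if_neg (by norm_num), u28] at this
  rw [this]; norm_num

theorem u30 : u 30 = 21175208 / 15447961 := by
  have := u_succ 29
  rw [show 29 + 1 = 30 by norm_num, t30, t29, if_pos rfl, u29] at this
  rw [this]; norm_num

theorem u31 : u 31 = 15447961 / 36623169 := by
  have := u_succ 30
  rw [show 30 + 1 = 31 by norm_num, t31, t30, if_neg (by norm_num), u30] at this
  rw [this]; norm_num

theorem u32 : u 32 = 67519091 / 52071130 := by
  have := u_succ 31
  rw [show 31 + 1 = 32 by norm_num, t32, t31, if_pos rfl, u31] at this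
  rw [this]; norm_num

end Pool.Agent.Helper84_TMFib
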